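import Pool.Agent.Helper9.WS.Defs

/-!
# The splitting congruence (project WS, block WS-3), with the integrality of the Artin-Hasse series as a hypothesis

Over `L[[X]]` let `E = ∑ ah n X ^ n`, `c = T t`, `c ^ (p ^ r) = c`, `G = ∏ E (c ^ (p ^ i) X)`, `τ = ∑ c ^ (p ^ i)`. With `l = ∑ X ^ (p ^ j)`
the recursion of the `ah n` is `X E' = l E`, so `X G' = τ l G` and `X (E ^ n)' = n l E ^ n`. Hence the coefficients `δ_k` of `G - E ^ n` satisfy
`k δ_k = τ ∑ δ_(k - p ^ j) + (τ - n) ∑ e_(k - p ^ j)`, and `v (k! δ_k) ≤ v (τ - n)`.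
-/

set_option autoImplicit false

open Finset

namespace Pool.Agent.Helper9.WS

private theorem ah_rec33 {p : ℕ} (hp : 1 < p) {n : ℕ} (hn : 0 < n) :
    (n : ℚ) * ah p n = ∑ j ∈ (range n).filter fun j => p ^ j ≤ n, ah p (n - p ^ j) := by
  obtain ⟨m, rfl⟩ : ∃ m, n = m + 1 := ⟨n - 1, by omega⟩
  rw [ah]
  have h0 : (m : ℚ) + 1 ≠ 0 := by positivity
  push_cast
  rw [mul_div_cancel₀ _ h0]
  refine sum_congr rfl fun j hj => ?_
  rw [mem_filter] at hj
  have h1 := Nat.one_le_pow j p (by omega)
  congr 1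
  omega

section

variable {L : Type} [Field L]

/-- `∑ ah n (z X) ^ n` -/
private noncomputable def Es (p : ℕ) (z : L) : PowerSeries L := PowerSeries.mk fun n => ((ah p n : ℚ) : L) * z ^ n

/-- `∑ (z X) ^ (p ^ j)` -/
private noncomputable def lam (p : ℕ) (z : L) : PowerSeries L := by
  classical
  exact PowerSeries.mk fun n => if ∃ j, p ^ j = n then z ^ n else 0

private theorem coeff_lam_pow (p : ℕ) (z : L) (j : ℕ) : PowerSeries.coeff (p ^ j) (lam p z) = z ^ p ^ j := by
  rw [lam, PowerSeries.coeff_mk, if_pos ⟨j, rfl⟩]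

private theorem coeff_lam_zero (p : ℕ) (z : L) {n : ℕ} (h : ¬ ∃ j, p ^ j = n) : PowerSeries.coeff n (lam p z) = 0 := by
  rw [lam, PowerSeries.coeff_mk, if_neg h]

/-- the product of the series `E (z i X)` -/
private noncomputable def Gp (p : ℕ) (z : ℕ → L) (r : ℕ) : PowerSeries L := ∏ i ∈ range r, Es p (z i)

private theorem coeff_lam {p : ℕ} (hp : 1 < p) (z : L) (f : PowerSeries L) (k : ℕ) :
    PowerSeries.coeff k (lam p z * f) =
      ∑ j ∈ (range k).filter fun j => p ^ j ≤ k, z ^ p ^ j * PowerSeries.coeff (k - p ^ j) f := by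
  classical
  rw [PowerSeries.coeff_mul, Finset.Nat.sum_antidiagonal_eq_sum_range_succ_mk]
  have hinj : Set.InjOn (fun j => p ^ j) (((range k).filter fun j => p ^ j ≤ k : Finset ℕ) : Set ℕ) :=
    fun a _ b _ h => Nat.pow_right_injective hp h
  rw [← Finset.sum_image (f := fun a => z ^ a * PowerSeries.coeff (k - a) f) (g := fun j => p ^ j) hinj]
  symm
  refine Finset.sum_subset_zero_on_sdiff ?_ ?_ ?_
  · intro a ha
    obtain ⟨j, hj, rfl⟩ := Finset.mem_image.1 ha
    rw [mem_filter] at hj
    exact mem_range.2 (by omega)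
  · intro a ha
    rw [mem_sdiff, mem_range] at ha
    rw [coeff_lam_zero, zero_mul]
    rintro ⟨j, rfl⟩
    refine ha.2 (Finset.mem_image.2 ⟨j, mem_filter.2 ⟨mem_range.2 ?_, by omega⟩, rfl⟩)
    exact (Nat.lt_pow_self hp).trans_le (by omega)
  · intro a ha
    obtain ⟨j, hj, rfl⟩ := Finset.mem_image.1 ha
    rw [coeff_lam_pow]

private theorem dEs {p : ℕ} (hp : 1 < p) [CharZero L] (z : L) :
    PowerSeries.X * PowerSeries.derivative L (Es p z) = lam p z * Es p z := by
  ext k
  rcases Nat.eq_zero_or_pos k with rfl | hk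
  · rw [PowerSeries.coeff_mul, PowerSeries.coeff_mul]
    simp only [Finset.Nat.antidiagonal_zero, sum_singleton]
    rw [coeff_lam_zero p z (by rintro ⟨j, hj⟩; exact absurd hj (by positivity)), zero_mul]
    simp
  · rw [coeff_lam hp z _ k]
    obtain ⟨m, rfl⟩ : ∃ m, k = m + 1 := ⟨k - 1, by omega⟩
    rw [mul_comm PowerSeries.X, PowerSeries.coeff_succ_mul_X, PowerSeries.coeff_derivative, Es, PowerSeries.coeff_mk]
    have h1 := ah_rec33 hp (n := m + 1) (by omega)
    have h2 : ((((m + 1 : ℕ) : ℚ) * ah p (m + 1) : ℚ) : L) =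
        ∑ j ∈ (range (m + 1)).filter fun j => p ^ j ≤ m + 1, ((ah p (m + 1 - p ^ j) : ℚ) : L) := by
      rw [h1]; push_cast; rfl
    calc ((ah p (m + 1) : ℚ) : L) * z ^ (m + 1) * ((m : L) + 1) = ((((m + 1 : ℕ) : ℚ) * ah p (m + 1) : ℚ) : L) * z ^ (m + 1) := by
          push_cast; ring
      _ = ∑ j ∈ (range (m + 1)).filter fun j => p ^ j ≤ m + 1, z ^ p ^ j * PowerSeries.coeff (m + 1 - p ^ j)
            (PowerSeries.mk fun n => ((ah p n : ℚ) : L) * z ^ n) := by
          rw [h2, Finset.sum_mul]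
          refine sum_congr rfl fun j hj => ?_
          rw [mem_filter] at hj
          rw [PowerSeries.coeff_mk]
          have h3 : z ^ (m + 1) = z ^ p ^ j * z ^ (m + 1 - p ^ j) := by
            rw [← pow_add]
            congr 1
            omega
          rw [h3]
          ring

private theorem dGp {p : ℕ} (hp : 1 < p) [CharZero L] (z : ℕ → L) (r : ℕ) :
    PowerSeries.X * PowerSeries.derivative L (Gp p z r) =
      (∑ i ∈ range r, lam p (z i)) * Gp p z r := by
  induction r with
  | zero => simp [Gp]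
  | succ r ih =>
    have h1 : Gp p z (r + 1) = Gp p z r * Es p (z r) := by
      rw [Gp, Finset.prod_range_succ, Gp]
    rw [h1, Finset.sum_range_succ, Derivation.leibniz, smul_eq_mul, smul_eq_mul, mul_add, add_mul]
    rw [show PowerSeries.X * (Gp p z r * PowerSeries.derivative L (Es p (z r))) =
      Gp p z r * (PowerSeries.X * PowerSeries.derivative L (Es p (z r))) by ring,
      show PowerSeries.X * (Es p (z r) * PowerSeries.derivative L (Gp p z r)) =
      Es p (z r) * (PowerSeries.X * PowerSeries.derivative L (Gp p z r)) by ring, ih, dEs hp]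
    ring

private theorem rec_Gp {p : ℕ} (hp : 1 < p) [CharZero L] (z : ℕ → L) (r : ℕ) {k : ℕ} (hk : 0 < k) :
    (k : L) * PowerSeries.coeff k (Gp p z r) =
      ∑ j ∈ (range k).filter fun j => p ^ j ≤ k, (∑ i ∈ range r, z i ^ p ^ j) * PowerSeries.coeff (k - p ^ j) (Gp p z r) := by
  have h1 := congrArg (PowerSeries.coeff k) (dGp hp z r)
  rw [Finset.sum_mul, map_sum] at h1
  rw [Finset.sum_congr rfl fun i _ => coeff_lam hp (z i) (Gp p z r) k, Finset.sum_comm] at h1
  obtain ⟨m, rfl⟩ : ∃ m, k = m + 1 := ⟨k - 1, by omega⟩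
  rw [mul_comm PowerSeries.X, PowerSeries.coeff_succ_mul_X, PowerSeries.coeff_derivative] at h1
  push_cast
  rw [mul_comm, h1]
  refine sum_congr rfl fun j _ => ?_
  rw [Finset.sum_mul]

private theorem shift_sum {p : ℕ} (c : L) {r : ℕ} (hc : c ^ p ^ r = c) (j : ℕ) :
    ∑ i ∈ range r, (c ^ p ^ i) ^ p ^ j = ∑ i ∈ range r, c ^ p ^ i := by
  induction j with
  | zero => simp
  | succ j ih =>
    rw [← ih]
    have h1 : ∀ i, (c ^ p ^ i) ^ p ^ (j + 1) = (c ^ p ^ (i + 1)) ^ p ^ j := by
      intro i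
      rw [← pow_mul, ← pow_mul]
      congr 1
      rw [← pow_add, ← pow_add]
      congr 1
      omega
    rw [Finset.sum_congr rfl fun i _ => h1 i]
    have h2 := Finset.sum_range_succ (fun i => (c ^ p ^ i) ^ p ^ j) r
    have h3 := Finset.sum_range_succ' (fun i => (c ^ p ^ i) ^ p ^ j) r
    rw [h2] at h3
    have h4 : (c ^ p ^ r) ^ p ^ j = (c ^ p ^ 0) ^ p ^ j := by rw [hc, pow_zero, pow_one]
    rw [h4] at h3
    exact (add_right_cancel h3).symm

private theorem coeff_zero_Gp {p : ℕ} (z : ℕ → L) (r : ℕ) : PowerSeries.coeff 0 (Gp p z r) = 1 := by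
  induction r with
  | zero => simp [Gp]
  | succ r ih =>
    have h1 : Gp p z (r + 1) = Gp p z r * Es p (z r) := by
      rw [Gp, Finset.prod_range_succ, Gp]
    rw [h1, PowerSeries.coeff_mul]
    simp only [Finset.Nat.antidiagonal_zero, sum_singleton]
    rw [ih, Es, PowerSeries.coeff_mk, ah]
    simp

private theorem v_nat (O : ValuationSubring L) (n : ℕ) : O.valuation (n : L) ≤ 1 := by
  rw [ValuationSubring.valuation_le_one_iff]
  exact natCast_mem O n

private theorem v_coeff_prod (O : ValuationSubring L) (f : ℕ → PowerSeries L)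
    (hf : ∀ i k, O.valuation (PowerSeries.coeff k (f i)) ≤ 1) (r k : ℕ) :
    O.valuation (PowerSeries.coeff k (∏ i ∈ range r, f i)) ≤ 1 := by
  induction r generalizing k with
  | zero =>
    rw [Finset.prod_range_zero, PowerSeries.coeff_one]
    split_ifs
    · simp
    · simp
  | succ r ih =>
    rw [Finset.prod_range_succ, PowerSeries.coeff_mul]
    refine Valuation.map_sum_le _ fun x _ => ?_
    rw [map_mul]
    exact mul_le_one' (ih _) (hf _ _)

/-- the estimate of the difference of the coefficients -/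
private theorem v_delta {p : ℕ} (hp : 1 < p) [CharZero L] (O : ValuationSubring L)
    (hah : ∀ n, O.valuation ((ah p n : ℚ) : L) ≤ 1) {c : L} (hcv : O.valuation c ≤ 1) {r : ℕ} (hc : c ^ p ^ r = c)
    (n k : ℕ) :
    O.valuation ((k.factorial : L) * (PowerSeries.coeff k (Gp p (fun i => c ^ p ^ i) r) -
      PowerSeries.coeff k (Gp p (fun _ => (1 : L)) n))) ≤ O.valuation (∑ i ∈ range r, c ^ p ^ i - (n : L)) := by
  set τ := ∑ i ∈ range r, c ^ p ^ i with hτ
  have hτv : O.valuation τ ≤ 1 := by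
    refine Valuation.map_sum_le _ fun x _ => ?_
    rw [map_pow]
    exact pow_le_one' hcv _
  have he : ∀ k, O.valuation (PowerSeries.coeff k (Gp p (fun _ => (1 : L)) n)) ≤ 1 := by
    intro k
    refine v_coeff_prod O (fun _ => Es p (1 : L)) (fun _ k => ?_) n k
    rw [Es, PowerSeries.coeff_mk, one_pow, mul_one]
    exact hah k
  induction k using Nat.strong_induction_on with
  | _ k ih =>
    rcases Nat.eq_zero_or_pos k with rfl | hk
    · rw [coeff_zero_Gp, coeff_zero_Gp, sub_self, mul_zero, map_zero]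
      exact zero_le
    · have h1 := rec_Gp hp (fun i => c ^ p ^ i) r hk
      have h2 := rec_Gp hp (fun _ => (1 : L)) n hk
      rw [Finset.sum_congr rfl fun j _ => by rw [shift_sum c hc j]] at h1
      rw [Finset.sum_congr rfl fun j _ => by rw [Finset.sum_congr rfl fun i _ => one_pow (p ^ j)]] at h2
      simp only [sum_const, card_range, nsmul_eq_mul, mul_one] at h2
      rw [← hτ] at h1
      have h3 : (k.factorial : L) * (PowerSeries.coeff k (Gp p (fun i => c ^ p ^ i) r) -
          PowerSeries.coeff k (Gp p (fun _ => (1 : L)) n)) =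
          ∑ j ∈ (range k).filter fun j => p ^ j ≤ k, (τ * (((k - 1).factorial : L) *
            (PowerSeries.coeff (k - p ^ j) (Gp p (fun i => c ^ p ^ i) r) -
              PowerSeries.coeff (k - p ^ j) (Gp p (fun _ => (1 : L)) n))) +
            (τ - n) * (((k - 1).factorial : L) * PowerSeries.coeff (k - p ^ j) (Gp p (fun _ => (1 : L)) n))) := by
        have h4 : (k.factorial : L) = ((k - 1).factorial : L) * k := by
          rw [← Nat.cast_mul, mul_comm, Nat.mul_factorial_pred (by omega)]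
        rw [h4, mul_assoc, mul_sub, h1, h2, ← Finset.sum_sub_distrib, Finset.mul_sum]
        refine sum_congr rfl fun j _ => ?_
        ring
      rw [h3]
      refine Valuation.map_sum_le _ fun j hj => ?_
      rw [mem_filter, mem_range] at hj
      have hpj := Nat.one_le_pow j p (by omega)
      refine (Valuation.map_add _ _ _).trans (max_le ?_ ?_)
      · rw [map_mul]
        have h5 : ((k - 1).factorial : L) = (((k - 1).factorial / (k - p ^ j).factorial : ℕ) : L) * ((k - p ^ j).factorial : L) := by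
          rw [← Nat.cast_mul, Nat.div_mul_cancel (Nat.factorial_dvd_factorial (by omega))]
        rw [h5, mul_assoc, map_mul O.valuation (((k - 1).factorial / (k - p ^ j).factorial : ℕ) : L)]
        calc _ ≤ 1 * (1 * O.valuation (τ - n)) :=
              mul_le_mul' hτv (mul_le_mul' (v_nat O _) (ih _ (by omega)))
          _ = _ := by rw [one_mul, one_mul]
      · rw [map_mul, map_mul]
        calc _ ≤ O.valuation (τ - n) * (1 * 1) := mul_le_mul' le_rfl (mul_le_mul' (v_nat O _) (he _))
          _ = _ := by rw [one_mul, mul_one]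

private theorem v_nat_ge (O : ValuationSubring L) {p : ℕ} (hp : p.Prime) (hpv : O.valuation (p : L) < 1) {K : ℕ} (hK : 0 < K) :
    O.valuation (p : L) ^ K ≤ O.valuation (K : L) := by
  obtain ⟨a, u, hu, hKe⟩ := Nat.exists_eq_pow_mul_and_not_dvd hK.ne' p hp.ne_one
  have hu1 : O.valuation (u : L) = 1 := by
    refine le_antisymm (v_nat O u) ?_
    by_contra hlt
    rw [not_le] at hlt
    have hcop : IsCoprime (u : ℤ) (p : ℤ) := by
      rw [Nat.isCoprime_iff_coprime]
      exact ((Nat.Prime.coprime_iff_not_dvd hp).2 hu).symm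
    obtain ⟨x, y, hxy⟩ := hcop
    have h1 : (x : L) * (u : L) + (y : L) * (p : L) = 1 := by exact_mod_cast congrArg (Int.cast : ℤ → L) hxy
    have hz : ∀ x : ℤ, O.valuation (x : L) ≤ 1 := fun x => by
      rw [ValuationSubring.valuation_le_one_iff]
      exact intCast_mem O x
    have h2 : O.valuation ((x : L) * (u : L) + (y : L) * (p : L)) < 1 := by
      refine (Valuation.map_add _ _ _).trans_lt (max_lt ?_ ?_)
      · rw [map_mul]
        exact (mul_le_of_le_one_left' (hz x)).trans_lt hlt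
      · rw [map_mul]
        exact (mul_le_of_le_one_left' (hz y)).trans_lt hpv
    rw [h1, map_one] at h2
    exact lt_irrefl _ h2
  have ha : a ≤ K := by
    have h1 : p ^ a ≤ K := Nat.le_of_dvd hK ⟨u, hKe⟩
    exact (Nat.lt_pow_self hp.one_lt).le.trans h1
  have h2 : O.valuation (K : L) = O.valuation (p : L) ^ a := by
    rw [hKe, Nat.cast_mul, Nat.cast_pow, map_mul, map_pow, hu1, mul_one]
  rw [h2]
  exact pow_le_pow_right_of_le_one' hpv.le ha

/-- the truncated series as a polynomial -/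
private noncomputable def Pm (p M : ℕ) (z : L) : Polynomial L :=
  ∑ j ∈ range M, Polynomial.C (((ah p j : ℚ) : L) * z ^ j) * Polynomial.X ^ j

private theorem Pm_coeff (p M : ℕ) (z : L) (k : ℕ) :
    (Pm p M z).coeff k = if k < M then ((ah p k : ℚ) : L) * z ^ k else 0 := by
  rw [Pm, Polynomial.finsetSum_coeff]
  simp only [Polynomial.coeff_C_mul, Polynomial.coeff_X_pow, mul_ite, mul_one, mul_zero]
  rw [Finset.sum_ite_eq]
  simp only [mem_range]

private theorem Pm_eval (p M : ℕ) (z γ : L) : (Pm p M z).eval γ = ev p M (γ * z) := by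
  rw [Pm, Polynomial.eval_finsetSum, ev]
  refine sum_congr rfl fun j _ => ?_
  simp only [Polynomial.eval_mul, Polynomial.eval_C, Polynomial.eval_pow, Polynomial.eval_X, mul_pow]
  ring

private theorem prod_congr_X (p M : ℕ) (z : ℕ → L) (r : ℕ) :
    PowerSeries.X ^ M ∣ ((∏ i ∈ range r, Pm p M (z i) : Polynomial L) : PowerSeries L) - Gp p z r := by
  have h0 : ∀ w : L, PowerSeries.X ^ M ∣ ((Pm p M w : Polynomial L) : PowerSeries L) - Es p w := by
    intro w
    rw [PowerSeries.X_pow_dvd_iff]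
    intro k hk
    rw [map_sub, Polynomial.coeff_coe, Pm_coeff, if_pos hk, Es, PowerSeries.coeff_mk, sub_self]
  induction r with
  | zero => simp [Gp]
  | succ r ih =>
    have h1 : Gp p z (r + 1) = Gp p z r * Es p (z r) := by
      rw [Gp, Finset.prod_range_succ, Gp]
    rw [h1, Finset.prod_range_succ, Polynomial.coe_mul]
    have h2 : ((∏ i ∈ range r, Pm p M (z i) : Polynomial L) : PowerSeries L) * ((Pm p M (z r) : Polynomial L) : PowerSeries L) -
        Gp p z r * Es p (z r) =
        (((∏ i ∈ range r, Pm p M (z i) : Polynomial L) : PowerSeries L) - Gp p z r) * ((Pm p M (z r) : Polynomial L) : PowerSeries L) +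
        Gp p z r * (((Pm p M (z r) : Polynomial L) : PowerSeries L) - Es p (z r)) := by ring
    rw [h2]
    exact dvd_add (Dvd.dvd.mul_right ih _) (Dvd.dvd.mul_left (h0 _) _)

private theorem v_coeff_prod_poly (O : ValuationSubring L) (f : ℕ → Polynomial L)
    (hf : ∀ i k, O.valuation ((f i).coeff k) ≤ 1) (r k : ℕ) :
    O.valuation ((∏ i ∈ range r, f i).coeff k) ≤ 1 := by
  induction r generalizing k with
  | zero =>
    rw [Finset.prod_range_zero, Polynomial.coeff_one]
    split_ifs
    · simp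
    · simp
  | succ r ih =>
    rw [Finset.prod_range_succ, Polynomial.coeff_mul]
    refine Valuation.map_sum_le _ fun x _ => ?_
    rw [map_mul]
    exact mul_le_one' (ih _) (hf _ _)

end

/-- WS-3: the splitting congruence; `hah` is `v_ah` of WS-1 -/
theorem split_of {p : ℕ} [Fact p.Prime] {κ L : Type} [Field κ] [Field L] [CharZero L]
    (Φ : Frame p κ L) (hah : ∀ n, Φ.v ((ah p n : ℚ) : L) ≤ 1) (M : ℕ) {γ : L} (hγ : Φ.v γ ≤ 1)
    (hγp : Φ.v (p : L) ≤ Φ.v γ) (r : ℕ) (t : κ) (ht : t ^ p ^ r = t) :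
    ∃ n : ℕ, (n : κ) = ∑ i ∈ range r, t ^ p ^ i ∧
      Φ.v (∏ i ∈ range r, ev p M (γ * Φ.T t ^ p ^ i) - ev p M γ ^ n) ≤ Φ.v γ ^ M := by
  have hpp : p.Prime := Fact.out
  have hp : 1 < p := hpp.one_lt
  obtain ⟨n, hn1, hn2⟩ := Φ.approx r t ht (M + M.factorial)
  refine ⟨n, hn2, ?_⟩
  set c := Φ.T t with hcdef
  have hc : c ^ p ^ r = c := by rw [hcdef, ← map_pow, ht]
  have hcv : Φ.v c ≤ 1 := Φ.T_le t
  set P : Polynomial L := ∏ i ∈ range r, Pm p M (c ^ p ^ i) - ∏ _i ∈ range n, Pm p M (1 : L) with hP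
  have hPev : P.eval γ = ∏ i ∈ range r, ev p M (γ * c ^ p ^ i) - ev p M γ ^ n := by
    rw [hP, Polynomial.eval_sub, Polynomial.eval_prod, Polynomial.eval_prod]
    congr 1
    · exact Finset.prod_congr rfl fun i _ => Pm_eval _ _ _ _
    · rw [Finset.prod_const, card_range, Pm_eval, mul_one]
  have hint : ∀ w : L, Φ.v w ≤ 1 → ∀ k, Φ.v ((Pm p M w).coeff k) ≤ 1 := by
    intro w hw k
    rw [Pm_coeff]
    split_ifs
    · rw [map_mul, map_pow]
      exact mul_le_one' (hah k) (pow_le_one' hw k)
    · simp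
  have hco : ∀ k, Φ.v (P.coeff k * γ ^ k) ≤ Φ.v γ ^ M := by
    intro k
    rw [map_mul, map_pow]
    rcases lt_or_ge k M with hk | hk
    · -- small degrees
      have h1 := (PowerSeries.X_pow_dvd_iff.1 (prod_congr_X p M (fun i => c ^ p ^ i) r)) k hk
      have h2 := (PowerSeries.X_pow_dvd_iff.1 (prod_congr_X p M (fun _ => (1 : L)) n)) k hk
      rw [map_sub, Polynomial.coeff_coe, sub_eq_zero] at h1 h2
      have h3 : P.coeff k = PowerSeries.coeff k (Gp p (fun i => c ^ p ^ i) r) -
          PowerSeries.coeff k (Gp p (fun _ => (1 : L)) n) := by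
        rw [hP, Polynomial.coeff_sub, h1, h2]
      have h4 := v_delta hp Φ.O hah hcv hc n k
      rw [← h3, map_mul] at h4
      have h5 : Φ.v (p : L) ^ M.factorial ≤ Φ.v (k.factorial : L) := by
        refine (v_nat_ge Φ.O hpp Φ.p_lt (Nat.factorial_pos M)).trans ?_
        have h6 : ((M.factorial : ℕ) : L) = ((M.factorial / k.factorial : ℕ) : L) * (k.factorial : L) := by
          rw [← Nat.cast_mul, Nat.div_mul_cancel (Nat.factorial_dvd_factorial hk.le)]
        rw [h6, map_mul]
        exact mul_le_of_le_one_left' (v_nat Φ.O _)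
      have h7 : Φ.v (k.factorial : L) * Φ.v (P.coeff k) ≤ Φ.v (k.factorial : L) * Φ.v γ ^ M := by
        refine h4.trans (hn1.trans ?_)
        rw [pow_add, mul_comm]
        exact mul_le_mul' h5 (pow_le_pow_left' hγp M)
      have h8 : Φ.v (k.factorial : L) ≠ 0 := by
        rw [ne_eq, Valuation.zero_iff]
        exact_mod_cast (Nat.factorial_pos k).ne'
      have h9 : Φ.v (P.coeff k) ≤ Φ.v γ ^ M := by
        exact (mul_le_mul_iff_of_pos_left (zero_lt_iff.2 h8)).1 h7
      exact (mul_le_of_le_one_right' (pow_le_one' hγ k)).trans h9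
    · have h1 : Φ.v (P.coeff k) ≤ 1 := by
        rw [hP, Polynomial.coeff_sub]
        refine (Valuation.map_sub _ _ _).trans (max_le ?_ ?_)
        · refine v_coeff_prod_poly Φ.O (fun i => Pm p M (c ^ p ^ i)) (fun i k => hint _ ?_ k) r k
          rw [map_pow]
          exact pow_le_one' hcv _
        · exact v_coeff_prod_poly Φ.O (fun _ => Pm p M (1 : L)) (fun i k => hint _ (by rw [map_one]) k) n k
      calc _ ≤ 1 * Φ.v γ ^ M := mul_le_mul' h1 (pow_le_pow_right_of_le_one' hγ hk)
        _ = _ := one_mul _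
  rw [← hPev, Polynomial.eval_eq_sum_range]
  exact Valuation.map_sum_le _ fun k _ => hco k

end Pool.Agent.Helper9.WS
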