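import Pool.Agent.Helper24.WS.AH
import Pool.Agent.Helper33.WS.SplitOf

/-!
# The splitting congruence (project WS, block WS-3)
-/

set_option autoImplicit false

open Finset

namespace Pool.Agent.Helper9.WS

theorem split {p : ℕ} [Fact p.Prime] {κ L : Type} [Field κ] [CharP κ p] [Field L] [CharZero L]
    (Φ : Frame p κ L) (M : ℕ) {γ : L} (hγ : Φ.v γ ≤ 1) (hγp : Φ.v (p : L) ≤ Φ.v γ) (r : ℕ) (t : κ)
    (ht : t ^ p ^ r = t) : ∃ n : ℕ, (n : κ) = ∑ i ∈ range r, t ^ p ^ i ∧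
      Φ.v (∏ i ∈ range r, ev p M (γ * Φ.T t ^ p ^ i) - ev p M γ ^ n) ≤ Φ.v γ ^ M :=
  split_of Φ (v_ah Φ) M hγ hγp r t ht

end Pool.Agent.Helper9.WS
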